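import Pool.Agent.Work.MP_db9399_sv.Geo

/-! # MP_db9399, services, block GEO (helper10) -/

set_option autoImplicit false

namespace Pool.Agent.Work.MP_db9399_sv.helper10

open Finset Classical
open Pool.Agent.Work.MP_db9399_all (nb)
open Pool.Agent.Work.MP_db9399_bg (HPre)
open Pool.Agent.Work.MP_db9399_sl (InS Same Gout Gss Gin Gex Out)

universe u

section
variable {V : Type u} [Fintype V] {k : ℕ}

/-- pairs `(v, y)`, `v ∈ Y`, `y` adjacent to `v`, with a property -/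
noncomputable def prs (G : SimpleGraph V) (Y : Finset V) (Q : V → V → Prop) : Finset (V × V) :=
  (Y ×ˢ univ).filter (fun p => G.Adj p.1 p.2 ∧ Q p.1 p.2)

lemma mem_prs {G : SimpleGraph V} {Y : Finset V} {Q : V → V → Prop} {p : V × V} :
    p ∈ prs G Y Q ↔ p.1 ∈ Y ∧ G.Adj p.1 p.2 ∧ Q p.1 p.2 := by
  simp [prs]

lemma card_prs (G : SimpleGraph V) (Y : Finset V) (Q : V → V → Prop) :
    (prs G Y Q).card = ∑ v ∈ Y, ((nb G v).filter (fun y => Q v y)).card := by
  unfold prs nb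
  rw [card_filter, sum_product]
  refine sum_congr rfl fun v _ => ?_
  rw [filter_filter, card_filter]

lemma card_prs_comm (G : SimpleGraph V) (Y H : Finset V) :
    (prs G Y (fun _ y => y ∈ H)).card ≤ H.card * Y.card := by
  calc (prs G Y (fun _ y => y ∈ H)).card ≤ (Y ×ˢ H).card := by
        refine card_le_card fun p hp => ?_
        rw [mem_prs] at hp
        exact mem_product.2 ⟨hp.1, hp.2.2⟩
    _ = H.card * Y.card := by rw [card_product, mul_comm]

/-- the slot of an edge -/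
def fi (t : V → V → Fin k) (p : V × V) : V × Fin k := (p.1, t p.1 p.2)

/-- the permitted pairs -/
def pmm (δ1 : ℝ) (G : SimpleGraph V) (d : ℕ) (Sh : Finset (Finset V)) (Lt : Finset V)
    (y v : V) : Prop :=
  (bt G Sh Lt y : ℝ) ≤ δ1 * d ∧ G.Adj y v ∧ InS Sh v ∧ v ∈ Lt

/-- the hubs dominated by `Y` -/
noncomputable def hbb (δ1 : ℝ) (G : SimpleGraph V) (d : ℕ) (Ys Sh : Finset (Finset V))
    (Lt Y : Finset V) : Finset V :=
  univ.filter (fun y => ¬ InS Ys y ∧ δ1 * d < (bt G Sh Lt y : ℝ) ∧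
    3 / 4 * (bt G Sh Lt y : ℝ) < ((nb G y ∩ (Y ∩ Lt)).card : ℝ))

variable {ι κ : Type} {δ θ η ε2 δ1 ρ : ℝ} {G EH : SimpleGraph V} {d : ℕ}
  {Ys Sh : Finset (Finset V)} {UH X0 Lt : Finset V} {c0 tu cc : V → Fin k} {t : V → V → Fin k}
  {E F0 : V → Finset (Fin k)} {K0 : Finset (Fin k)} {μ : V → Fin k} {nd : Finset V → ℕ}
  {Ex : Finset V → Finset (Fin k)} {E1 : Finset (Fin k)} {vb : Fin k → Option ι}
  {sy : Fin k → κ × κ} {u : V → Option ι} {j0 : ι} {sp : V → κ} {hM : V → V → Prop}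

lemma inS_of_sh (hB : Bas δ θ η G EH d Ys Sh UH X0 c0 tu cc t E F0 K0 μ nd Ex) {v : V}
    (h : InS Sh v) : InS Ys v := by
  obtain ⟨Y, hY, hv⟩ := h
  exact ⟨Y, hB.sh hY, hv⟩

lemma not_UH (hB : Bas δ θ η G EH d Ys Sh UH X0 c0 tu cc t E F0 K0 μ nd Ex) {v : V}
    (h : InS Ys v) (hv : v ∉ X0) : v ∉ UH := fun h' => hv (hB.UX v h' h)

lemma not_EH (hB : Bas δ θ η G EH d Ys Sh UH X0 c0 tu cc t E F0 K0 μ nd Ex) {v : V}
    (h : InS Ys v) (hv : v ∉ X0) (w : V) : ¬ EH.Adj v w := fun h' =>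
  not_UH hB h hv (hB.pre.EU v w h')

omit [Fintype V] in
lemma gex_of_out {v y : V} (h : G.Adj v y) (hy : ¬ InS Ys y) : (Gex G Ys).Adj v y :=
  ⟨h, fun ⟨Y, hY, _, h2⟩ => hy ⟨Y, hY, h2⟩⟩

lemma fi_mem (hB : Bas δ θ η G EH d Ys Sh UH X0 c0 tu cc t E F0 K0 μ nd Ex) {Y : Finset V}
    (hY : Y ∈ Ys) {p : V × V} (h1 : p.1 ∈ Y) (h2 : (Gex G Ys).Adj p.1 p.2) :
    fi t p ∈ slo Y E := by
  unfold slo fi
  rw [mem_filter]
  exact ⟨mem_product.2 ⟨h1, mem_univ _⟩, hB.cor.Et p.1 p.2 ⟨Y, hY, h1⟩ (Or.inl h2)⟩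

lemma fi_inj (hB : Bas δ θ η G EH d Ys Sh UH X0 c0 tu cc t E F0 K0 μ nd Ex) {p q : V × V}
    (h1 : (Gex G Ys).Adj p.1 p.2) (h2 : (Gex G Ys).Adj q.1 q.2) (h : fi t p = fi t q) :
    p = q := by
  obtain ⟨a, b⟩ := p
  obtain ⟨a', b'⟩ := q
  simp only [fi, Prod.mk.injEq] at h
  obtain ⟨rfl, h⟩ := h
  have := hB.cor.ti a (show b ∈ {w | (Gex G Ys).Adj a w ∨ EH.Adj a w} from Or.inl h1)
    (show b' ∈ {w | (Gex G Ys).Adj a w ∨ EH.Adj a w} from Or.inl h2) h
  rw [this]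

/-! ### usable slots -/

lemma usl_fake (hB : Bas δ θ η G EH d Ys Sh UH X0 c0 tu cc t E F0 K0 μ nd Ex) (hθ : θ ≤ 1 / 100)
    (hρ : ρ ≤ 1 / 2) {v : V} {α : Fin k} (Pm : V → V → Prop) (hv : InS Sh v) (hv0 : v ∉ X0)
    (hα : α ∈ E v) (hf : ∀ w, (Gex G Ys).Adj v w ∨ EH.Adj v w → t v w ≠ α) :
    Usl ρ G EH d Ys Sh UH X0 K0 μ t E F0 Pm (v, α) := by
  refine Or.inr ⟨0, by decide, ?_⟩
  have h1 : (K0 \ E v).card ≤ (univ.filter (fun q : Cn V k => kd q = 0 ∧ qv q = v ∧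
      al q = α ∧ Vld G EH Ys Sh UH X0 K0 μ t E F0 q)).card := by
    refine card_le_card_of_injOn (fun β => ((0 : Fin 4), v, v, v, α, β)) ?_ ?_
    · intro β hβ
      have hβ' := mem_sdiff.1 (mem_coe.1 hβ)
      refine mem_coe.2 (mem_filter.2 ⟨mem_univ _, rfl, rfl, rfl, hv, hv0, Or.inl hv0, hα, hβ'.1, hβ'.2,
        Or.inl ⟨rfl, rfl, rfl, hf⟩⟩)
    · intro β _ β' _ h
      simpa using h
  have h2 : (K0.card : ℝ) ≤ (K0 \ E v).card + (E v).card := by
    have := le_card_sdiff (E v) K0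
    have h3 : K0.card ≤ (K0 \ E v).card + (E v).card := by omega
    exact_mod_cast h3
  have h3 := hB.Ec v (inS_of_sh hB hv)
  have h4 : (K0.card : ℝ) = d + 2 := by rw [hB.K0c]; push_cast; ring
  have h5 : ((K0 \ E v).card : ℝ) ≤ ((univ.filter (fun q : Cn V k => kd q = 0 ∧ qv q = v ∧
      al q = α ∧ Vld G EH Ys Sh UH X0 K0 μ t E F0 q)).card : ℝ) := by exact_mod_cast h1
  have hd : (0 : ℝ) ≤ d := Nat.cast_nonneg d
  have h6 : θ * d ≤ 1 / 100 * d := mul_le_mul_of_nonneg_right hθ hd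
  have h7 : ρ * d ≤ 1 / 2 * d := mul_le_mul_of_nonneg_right hρ hd
  simp only
  linarith

lemma usl_ss (hB : Bas δ θ η G EH d Ys Sh UH X0 c0 tu cc t E F0 K0 μ nd Ex) (hθ : θ ≤ 1 / 100)
    (hρ : ρ ≤ 1 / 2) {v x : V} {α : Fin k} (Pm : V → V → Prop) (hv : InS Sh v) (hv0 : v ∉ X0)
    (hα : α ∈ E v) (hx : InS Ys x) (hx0 : x ∉ X0) (hvx : (Gex G Ys).Adj v x)
    (ht : t v x = α) :
    Usl ρ G EH d Ys Sh UH X0 K0 μ t E F0 Pm (v, α) := by
  refine Or.inr ⟨2, by decide, ?_⟩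
  have h1 : ((K0 \ E v) \ E x).card ≤ (univ.filter (fun q : Cn V k => kd q = 2 ∧ qv q = v ∧
      al q = α ∧ Vld G EH Ys Sh UH X0 K0 μ t E F0 q)).card := by
    refine card_le_card_of_injOn (fun β => ((2 : Fin 4), v, x, x, α, β)) ?_ ?_
    · intro β hβ
      have hβ' := mem_sdiff.1 (mem_coe.1 hβ)
      have hβ'' := mem_sdiff.1 hβ'.1
      refine mem_coe.2 (mem_filter.2 ⟨mem_univ _, rfl, rfl, rfl, hv, hv0, Or.inl hx0, hα, hβ''.1,
        hβ''.2, Or.inr (Or.inr (Or.inl ⟨rfl, rfl, hx, hvx,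
          not_EH hB (inS_of_sh hB hv) hv0 x, ht, hβ'.2⟩))⟩)
    · intro β _ β' _ h
      simpa using h
  have h2 : (K0.card : ℝ) ≤ ((K0 \ E v) \ E x).card + (E v).card + (E x).card := by
    have h21 := le_card_sdiff (E v) K0
    have h22 := le_card_sdiff (E x) (K0 \ E v)
    have h3 : K0.card ≤ ((K0 \ E v) \ E x).card + (E v).card + (E x).card := by omega
    exact_mod_cast h3
  have h3 := hB.Ec v (inS_of_sh hB hv)
  have h3' := hB.Ec x hx
  have h4 : (K0.card : ℝ) = d + 2 := by rw [hB.K0c]; push_cast; ring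
  have h5 : (((K0 \ E v) \ E x).card : ℝ) ≤ ((univ.filter (fun q : Cn V k => kd q = 2 ∧
      qv q = v ∧ al q = α ∧ Vld G EH Ys Sh UH X0 K0 μ t E F0 q)).card : ℝ) := by exact_mod_cast h1
  have hd : (0 : ℝ) ≤ d := Nat.cast_nonneg d
  have h6 : θ * d ≤ 1 / 100 * d := mul_le_mul_of_nonneg_right hθ hd
  have h7 : ρ * d ≤ 1 / 2 * d := mul_le_mul_of_nonneg_right hρ hd
  simp only
  linarith

/-- edges to the vertices of `UH` in other spots -/
lemma usl_ssU (hB : Bas δ θ η G EH d Ys Sh UH X0 c0 tu cc t E F0 K0 μ nd Ex) (hθ : θ ≤ 1 / 100)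
    (hρ : ρ ≤ 1 / 2) {v x : V} {α : Fin k} (Pm : V → V → Prop) (hv : InS Sh v) (hv0 : v ∉ X0)
    (hα : α ∈ E v) (hx : InS Ys x) (hxU : x ∈ UH) (hvx : (Gex G Ys).Adj v x)
    (ht : t v x = α) :
    Usl ρ G EH d Ys Sh UH X0 K0 μ t E F0 Pm (v, α) := by
  refine Or.inr ⟨2, by decide, ?_⟩
  have h1 : (((K0 \ E v) \ E x) \ F0 x).card ≤ (univ.filter (fun q : Cn V k => kd q = 2 ∧
      qv q = v ∧ al q = α ∧ Vld G EH Ys Sh UH X0 K0 μ t E F0 q)).card := by
    refine card_le_card_of_injOn (fun β => ((2 : Fin 4), v, x, x, α, β)) ?_ ?_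
    · intro β hβ
      have hβ0 := mem_sdiff.1 (mem_coe.1 hβ)
      have hβ' := mem_sdiff.1 hβ0.1
      have hβ'' := mem_sdiff.1 hβ'.1
      refine mem_coe.2 (mem_filter.2 ⟨mem_univ _, rfl, rfl, rfl, hv, hv0,
        Or.inr ⟨rfl, hxU, hβ0.2⟩, hα, hβ''.1,
        hβ''.2, Or.inr (Or.inr (Or.inl ⟨rfl, rfl, hx, hvx,
          not_EH hB (inS_of_sh hB hv) hv0 x, ht, hβ'.2⟩))⟩)
    · intro β _ β' _ h
      simpa using h
  have h2 : (K0.card : ℝ) ≤ (((K0 \ E v) \ E x) \ F0 x).card + (E v).card + (E x).card + 2 := by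
    have h21 := le_card_sdiff (E v) K0
    have h22 := le_card_sdiff (E x) (K0 \ E v)
    have h23 := le_card_sdiff (F0 x) ((K0 \ E v) \ E x)
    have h24 := hB.F0u x hxU
    have h3 : K0.card ≤ (((K0 \ E v) \ E x) \ F0 x).card + (E v).card + (E x).card + 2 := by
      omega
    exact_mod_cast h3
  have h3 := hB.Ec v (inS_of_sh hB hv)
  have h3' := hB.Ec x hx
  have h4 : (K0.card : ℝ) = d + 2 := by rw [hB.K0c]; push_cast; ring
  have h5 : ((((K0 \ E v) \ E x) \ F0 x).card : ℝ) ≤ ((univ.filter (fun q : Cn V k => kd q = 2 ∧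
      qv q = v ∧ al q = α ∧ Vld G EH Ys Sh UH X0 K0 μ t E F0 q)).card : ℝ) := by exact_mod_cast h1
  have hd : (0 : ℝ) ≤ d := Nat.cast_nonneg d
  have h6 : θ * d ≤ 1 / 100 * d := mul_le_mul_of_nonneg_right hθ hd
  have h7 : ρ * d ≤ 1 / 2 * d := mul_le_mul_of_nonneg_right hρ hd
  simp only
  linarith

/-- poor hubs -/
lemma usl_poor (hB : Bas δ θ η G EH d Ys Sh UH X0 c0 tu cc t E F0 K0 μ nd Ex)
    (hL : Lab ε2 G EH d Ys Sh UH X0 Lt t E μ E1 vb sy u j0 sp hM)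
    {v y : V} {i : ι} (hv : InS Sh v) (hvL : v ∈ Lt) (hv0 : v ∉ X0) (hu : u v = some i)
    (hy : ¬ InS Ys y) (hvy : G.Adj v y) (hb : (bt G Sh Lt y : ℝ) ≤ δ1 * d)
    (hq : y ∈ UH ∨ ¬ hM v y) :
    Usl ρ G EH d Ys Sh UH X0 K0 μ t E F0 (pmm δ1 G d Sh Lt) (v, t v y) := by
  have hvY := inS_of_sh hB hv
  have hα : t v y ∈ E v := hB.cor.Et v y hvY (Or.inl (gex_of_out hvy hy))
  refine Or.inl ⟨((1 : Fin 4), v, y, v, t v y, μ y), rfl, rfl, rfl, ⟨hb, hvy.symm, hv, hvL⟩, hv,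
    hv0, Or.inl hv0, hα, (hB.mis y hy).1, ?_, Or.inr (Or.inl ⟨rfl, rfl, hy, hvy, not_EH hB hvY hv0 y, rfl,
      rfl⟩)⟩
  intro hμ
  obtain ⟨h1, h2, h3⟩ := hL.hst v y i hv hvL (not_UH hB hvY hv0) hy hvy hu hq
  rcases hL.typ v i hv hvL (not_UH hB hvY hv0) hu (μ y) hμ with h | h
  · rcases h.2 with h4 | h4
    · exact h2 h4
    · exact h3 h4
  · exact h1 h.1

/-- rich hubs which are not dominated -/
lemma usl_rich (hB : Bas δ θ η G EH d Ys Sh UH X0 c0 tu cc t E F0 K0 μ nd Ex)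
    (hL : Lab ε2 G EH d Ys Sh UH X0 Lt t E μ E1 vb sy u j0 sp hM) (Pm : V → V → Prop)
    (hρ : ρ + ε2 ≤ δ1 / 4) {Y : Finset V} (hY : Y ∈ Sh)
    {v y : V} {i : ι} (hv : v ∈ Y) (hvL : v ∈ Lt) (hv0 : v ∉ X0) (hu : u v = some i)
    (hi : i ≠ j0) (hy : ¬ InS Ys y) (hvy : G.Adj v y) (hb : δ1 * d < (bt G Sh Lt y : ℝ))
    (hdom : ((nb G y ∩ (Y ∩ Lt)).card : ℝ) ≤ 3 / 4 * (bt G Sh Lt y : ℝ))
    (hq : y ∈ UH ∨ sp y ≠ sp v) :
    Usl ρ G EH d Ys Sh UH X0 K0 μ t E F0 Pm (v, t v y) := by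
  have hvS : InS Sh v := ⟨Y, hY, hv⟩
  have hvY := inS_of_sh hB hvS
  have hvU := not_UH hB hvY hv0
  have hα : t v y ∈ E v := hB.cor.Et v y hvY (Or.inl (gex_of_out hvy hy))
  refine Or.inr ⟨3, by decide, ?_⟩
  set D : Finset V := ((nb G y).filter (fun x => InS Sh x ∧ x ∈ Lt)).filter (fun x =>
    u x = none ∨ u x = some j0 ∨ u x = some i ∨ sp x = sp v ∨ sp x = sp y ∨ x ∈ X0) with hD
  set N : Finset V := (nb G y).filter (fun x => InS Sh x ∧ x ∈ Lt) with hN
  have hDc : (D.card : ℝ) ≤ ε2 * d := hL.den y i (sp v) (sp y) hy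
  have h1 : ((N \ Y) \ D).card ≤ (univ.filter (fun q : Cn V k => kd q = 3 ∧ qv q = v ∧
      al q = t v y ∧ Vld G EH Ys Sh UH X0 K0 μ t E F0 q)).card := by
    refine card_le_card_of_injOn (fun x => ((3 : Fin 4), v, y, x, t v y, t x y)) ?_ ?_
    · intro x hx
      have hx1 := mem_sdiff.1 (mem_coe.1 hx)
      have hx2 := mem_sdiff.1 hx1.1
      have hx3 := mem_filter.1 hx2.1
      have hxD : ¬ (u x = none ∨ u x = some j0 ∨ u x = some i ∨ sp x = sp v ∨ sp x = sp y ∨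
          x ∈ X0) := fun h => hx1.2 (mem_filter.2 ⟨hx2.1, h⟩)
      push Not at hxD
      obtain ⟨hx4, hx5, hx6, hx7, hx8, hx9⟩ := hxD
      have hxS : InS Sh x := hx3.2.1
      have hxL : x ∈ Lt := hx3.2.2
      have hxY := inS_of_sh hB hxS
      have hxU := not_UH hB hxY hx9
      have hyx : G.Adj y x := by
        have := hx3.1
        unfold nb at this
        exact (mem_filter.1 this).2
      obtain ⟨i', hi'⟩ : ∃ i', u x = some i' := Option.ne_none_iff_exists'.1 hx4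
      have hii : i' ≠ i := fun h => hx6 (by rw [hi', h])
      have hij : i' ≠ j0 := fun h => hx5 (by rw [hi', h])
      have hxE := not_EH hB hxY hx9 y
      have hgx : (Gex G Ys).Adj x y := gex_of_out hyx.symm hy
      have hβK : t x y ∈ K0 := hB.cor.tK x y hgx hxE
      have hβ : t x y ∉ E v := by
        intro hm
        have ht := hL.typ v i hvS hvL hvU hu (t x y) hm
        rcases hL.edg x y i' hxS hxL hxU hy hyx.symm hi' with h | h
        · rcases ht with h' | h'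
          · rcases h'.2 with h3 | h3
            · rw [h.2] at h3
              exact hii (by simpa using h3)
            · rw [h.2] at h3
              exact hij (by simpa using h3)
          · exact h.1 h'.1
        · obtain ⟨h10, h11, h12, h13⟩ := h
          rcases ht with h' | h'
          · exact h'.1 h10
          · have hyv : sp y ≠ sp v := by
              rcases hq with hq | hq
              · exact absurd hq h11
              · exact hq
            rcases h'.2 with h3 | h3 <;> rcases h12 with h4 | h4 <;> rcases h13 with h5 | h5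
            · exact hx7 (h4.trans h3.symm)
            · exact hx7 (h4.trans h3.symm)
            · exact hyv (h5.trans h3.symm)
            · exact hx8 (h4.trans h5.symm)
            · exact hx8 (h4.trans h5.symm)
            · exact hyv (h5.trans h3.symm)
            · exact hx7 (h4.trans h3.symm)
            · exact hx7 (h4.trans h3.symm)
      have hαx : t v y ∉ E x := by
        intro hm
        have ht := hL.typ x i' hxS hxL hxU hi' (t v y) hm
        rcases hL.edg v y i hvS hvL hvU hy hvy hu with h | h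
        · rcases ht with h' | h'
          · rcases h'.2 with h3 | h3
            · rw [h.2] at h3
              exact hii.symm (by simpa using h3)
            · rw [h.2] at h3
              exact hi (by simpa using h3)
          · exact h.1 h'.1
        · obtain ⟨h10, h11, h12, h13⟩ := h
          rcases ht with h' | h'
          · exact h'.1 h10
          · have hyv : sp y ≠ sp v := by
              rcases hq with hq | hq
              · exact absurd hq h11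
              · exact hq
            rcases h'.2 with h3 | h3 <;> rcases h12 with h4 | h4 <;> rcases h13 with h5 | h5
            · exact hx7 (h3.trans h4.symm)
            · exact hx7 (h3.trans h4.symm)
            · exact hx8 (h3.trans h5.symm)
            · exact hyv (h5.trans h4.symm)
            · exact hyv (h5.trans h4.symm)
            · exact hx8 (h3.trans h5.symm)
            · exact hx7 (h3.trans h4.symm)
            · exact hx7 (h3.trans h4.symm)
      have hsame : ¬ Same Ys v x := by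
        rintro ⟨Y', hY', h1, h2⟩
        by_cases he : Y' = Y
        · exact hx2.2 (he ▸ h2)
        · exact disjoint_left.1 (hB.dis Y' hY' Y (hB.sh hY) he) h1 hv
      exact mem_coe.2 (mem_filter.2 ⟨mem_univ _, rfl, rfl, rfl, hvS, hv0, Or.inl hx9, hα, hβK, hβ,
        Or.inr (Or.inr (Or.inr ⟨rfl, hy, hvy, not_EH hB hvY hv0 y, rfl, hxS, hyx.symm, hxE, rfl,
          hαx, hsame⟩))⟩)
    · intro x _ x' _ h
      simp only [Prod.mk.injEq] at h
      exact h.2.2.2.1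
  have h2 : N.card ≤ ((N \ Y) \ D).card + D.card + (nb G y ∩ (Y ∩ Lt)).card := by
    have h21 := le_card_sdiff D (N \ Y)
    have h22 : N.card ≤ (N \ Y).card + (nb G y ∩ (Y ∩ Lt)).card := by
      have : N ⊆ (N \ Y) ∪ (nb G y ∩ (Y ∩ Lt)) := by
        intro x hx
        by_cases hxY : x ∈ Y
        · exact mem_union_right _ (mem_inter.2 ⟨(mem_filter.1 hx).1,
            mem_inter.2 ⟨hxY, (mem_filter.1 hx).2.2⟩⟩)
        · exact mem_union_left _ (mem_sdiff.2 ⟨hx, hxY⟩)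
      exact (card_le_card this).trans (card_union_le _ _)
    omega
  have h2' : (N.card : ℝ) ≤ (((N \ Y) \ D).card : ℝ) + D.card + (nb G y ∩ (Y ∩ Lt)).card := by
    exact_mod_cast h2
  have h3 : (N.card : ℝ) = (bt G Sh Lt y : ℝ) := rfl
  have h5 : (((N \ Y) \ D).card : ℝ) ≤ ((univ.filter (fun q : Cn V k => kd q = 3 ∧
      qv q = v ∧ al q = t v y ∧ Vld G EH Ys Sh UH X0 K0 μ t E F0 q)).card : ℝ) := by exact_mod_cast h1
  have hd : (0 : ℝ) ≤ d := Nat.cast_nonneg d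
  have h6 : (ρ + ε2) * d ≤ δ1 / 4 * d := mul_le_mul_of_nonneg_right hρ hd
  simp only
  linarith

/-! ### the dominated hubs -/

lemma hbb_good (hB : Bas δ θ η G EH d Ys Sh UH X0 c0 tu cc t E F0 K0 μ nd Ex)
    (hL : Lab ε2 G EH d Ys Sh UH X0 Lt t E μ E1 vb sy u j0 sp hM)
    (hρ : ρ + 2 * ε2 ≤ δ1 / 2) (hd1 : 4 ≤ δ1 * d) {Y : Finset V} (hY : Y ∈ Sh)
    {y : V} (hy : y ∈ hbb δ1 G d Ys Sh Lt Y) :
    ρ * d ≤ ((Y.filter (fun v => v ∉ X0 ∧ G.Adj v y ∧ ¬ EH.Adj v y ∧ μ y ∉ E v)).card : ℝ) := by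
  obtain ⟨_, hyS, hyr, hyd⟩ := mem_filter.1 hy
  obtain ⟨i0, hi0⟩ : ∃ i0 : ι, ∀ i, vb (μ y) = some i → i = i0 := by
    rcases h : vb (μ y) with _ | i
    · exact ⟨j0, fun i h' => by simp at h'⟩
    · exact ⟨i, fun i' h' => by simpa using h'.symm⟩
  set D : Finset V := ((nb G y).filter (fun x => InS Sh x ∧ x ∈ Lt)).filter (fun x =>
    u x = none ∨ u x = some j0 ∨ u x = some i0 ∨ sp x = (sy (μ y)).1 ∨ sp x = (sy (μ y)).2 ∨
    x ∈ X0) with hD
  have hDc : (D.card : ℝ) ≤ ε2 * d := hL.den y i0 _ _ hyS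
  set B : Finset V := if vb (μ y) = some j0 ∧ μ y ∉ E1 then
    Y.filter (fun v => v ∈ Lt ∧ μ y ∈ E v ∧ u v ≠ none ∧ u v ≠ some j0) else ∅ with hBdef
  have hBc : (B.card : ℝ) ≤ ε2 * d := by
    rw [hBdef]
    split_ifs with h
    · exact hL.ss Y hY (μ y) h.1 h.2
    · simp only [card_empty, Nat.cast_zero]
      exact le_trans (Nat.cast_nonneg _) hDc
  have hsub : nb G y ∩ (Y ∩ Lt) ⊆ (Y.filter (fun v => v ∉ X0 ∧ G.Adj v y ∧ ¬ EH.Adj v y ∧
      μ y ∉ E v)) ∪ (D ∪ B) := by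
    intro v hv
    obtain ⟨hv1, hv20⟩ := mem_inter.1 hv
    obtain ⟨hv2, hvL⟩ := mem_inter.1 hv20
    have hyv : G.Adj y v := by
      unfold nb at hv1
      exact (mem_filter.1 hv1).2
    by_cases hvD : v ∈ D
    · exact mem_union_right _ (mem_union_left _ hvD)
    · have hvS : InS Sh v := ⟨Y, hY, hv2⟩
      have hvN : v ∈ (nb G y).filter (fun x => InS Sh x ∧ x ∈ Lt) :=
        mem_filter.2 ⟨hv1, hvS, hvL⟩
      have hx : ¬ (u v = none ∨ u v = some j0 ∨ u v = some i0 ∨ sp v = (sy (μ y)).1 ∨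
          sp v = (sy (μ y)).2 ∨ v ∈ X0) := fun h => hvD (mem_filter.2 ⟨hvN, h⟩)
      push Not at hx
      obtain ⟨h1, h2, h3, h4, h5, h6⟩ := hx
      have hvY := inS_of_sh hB hvS
      by_cases hm : μ y ∈ E v
      · obtain ⟨i', hi'⟩ : ∃ i', u v = some i' := Option.ne_none_iff_exists'.1 h1
        rcases hL.typ v i' hvS hvL (not_UH hB hvY h6) hi' (μ y) hm with h | h
        · rcases h.2 with h7 | h7
          · exact absurd (by rw [hi', hi0 i' h7]) h3
          · refine mem_union_right _ (mem_union_right _ ?_)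
            rw [hBdef, if_pos ⟨h7, h.1⟩]
            exact mem_filter.2 ⟨hv2, hvL, hm, h1, h2⟩
        · rcases h.2 with h7 | h7
          · exact absurd h7 h4
          · exact absurd h7 h5
      · exact mem_union_left _ (mem_filter.2 ⟨hv2, h6, hyv.symm, not_EH hB hvY h6 y, hm⟩)
  have hc := (card_le_card hsub).trans (card_union_le _ _)
  have hc' := card_union_le D B
  have hc2 : ((nb G y ∩ (Y ∩ Lt)).card : ℝ) ≤ ((Y.filter (fun v => v ∉ X0 ∧ G.Adj v y ∧
      ¬ EH.Adj v y ∧ μ y ∉ E v)).card : ℝ) + (D.card + B.card) := by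
    have : (nb G y ∩ (Y ∩ Lt)).card ≤ (Y.filter (fun v => v ∉ X0 ∧ G.Adj v y ∧
      ¬ EH.Adj v y ∧ μ y ∉ E v)).card + (D.card + B.card) := by omega
    exact_mod_cast this
  have hd : (0 : ℝ) ≤ d := Nat.cast_nonneg d
  have h6 : (ρ + 2 * ε2) * d ≤ δ1 / 2 * d := mul_le_mul_of_nonneg_right hρ hd
  linarith

/-! ### the usable slots -/

/-- few slots have an excluded colour -/
lemma ex_card (hB : Bas δ θ η G EH d Ys Sh UH X0 c0 tu cc t E F0 K0 μ nd Ex) {Y : Finset V}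
    (hY : Y ∈ Ys) (X : Finset (Fin k)) :
    (((slo Y E).filter (fun s => s.2 ∈ X)).card : ℝ) ≤ X.card * (δ * d) := by
  have h1 : ((slo Y E).filter (fun s => s.2 ∈ X)).card ≤
      ∑ b ∈ X, (Y.filter (fun v => b ∈ E v)).card := by
    rw [← card_sigma]
    refine card_le_card_of_injOn (fun s => ⟨s.2, s.1⟩) ?_ ?_
    · intro s hs
      have h2 := mem_filter.1 (mem_coe.1 hs)
      have h3 := mem_filter.1 h2.1
      exact mem_coe.2 (mem_sigma.2 ⟨h2.2, mem_filter.2 ⟨(mem_product.1 h3.1).1, h3.2⟩⟩)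
    · intro s _ s' _ h
      simp only [Sigma.mk.injEq, heq_eq_eq] at h
      exact Prod.ext h.2 h.1
  calc (((slo Y E).filter (fun s => s.2 ∈ X)).card : ℝ)
      ≤ ((∑ b ∈ X, (Y.filter (fun v => b ∈ E v)).card : ℕ) : ℝ) := by exact_mod_cast h1
    _ = ∑ b ∈ X, ((Y.filter (fun v => b ∈ E v)).card : ℝ) := by push_cast; rfl
    _ ≤ ∑ _b ∈ X, δ * d := sum_le_sum fun b _ => hB.ld Y hY b
    _ = X.card * (δ * d) := by rw [sum_const, nsmul_eq_mul]

/-- the lost slots, real estimate -/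
lemma ex_real (hB : Bas δ θ η G EH d Ys Sh UH X0 c0 tu cc t E F0 K0 μ nd Ex) {Y : Finset V}
    (hY : Y ∈ Sh) (hδ : 0 < δ) :
    (((slo Y E).filter (fun s => s.2 ∈ Ex Y)).card : ℝ) ≤ (nd Y + 4) * (2 * δ * Y.card) := by
  have h1 := ex_card hB (hB.sh hY) (Ex Y)
  have h2 : ((Ex Y).card : ℝ) ≤ nd Y + 4 := by exact_mod_cast hB.Exc Y hY
  have h3 : (d : ℝ) ≤ 2 * Y.card := by exact_mod_cast hB.low Y hY
  have h4 : δ * d ≤ 2 * δ * Y.card := by nlinarith
  calc _ ≤ ((Ex Y).card : ℝ) * (δ * d) := h1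
    _ ≤ (nd Y + 4) * (δ * d) := mul_le_mul_of_nonneg_right h2 (by positivity)
    _ ≤ _ := mul_le_mul_of_nonneg_left h4 (by positivity)

lemma us_big {c ε : ℝ} (hB : Bas δ θ η G EH d Ys Sh UH X0 c0 tu cc t E F0 K0 μ nd Ex)
    (hL : Lab ε2 G EH d Ys Sh UH X0 Lt t E μ E1 vb sy u j0 sp hM) (hθ : θ ≤ 1 / 100)
    (hρ1 : ρ ≤ 1 / 2) (hρ : ρ + ε2 ≤ δ1 / 4) (hc : 0 < c) (hε : ε ≤ c / 400)
    (hδ0 : 0 < δ) (hδ : δ ≤ ε) {Y : Finset V} (hY : Y ∈ Sh) (hYp : 0 < Y.card)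
    (hn : (hbb δ1 G d Ys Sh Lt Y).card < nd Y)
    (hG : Big c ε δ1 G EH d Ys Sh UH X0 Lt E u j0 sp hM nd Y) :
    1 / 5 * ((nd Y : ℝ) - (hbb δ1 G d Ys Sh Lt Y).card) * Y.card ≤
      (((slo Y E).filter (fun s => s.2 ∉ Ex Y ∧ Usl ρ G EH d Ys Sh UH X0 K0 μ t E F0
      (pmm δ1 G d Sh Lt) s)).card : ℝ) := by
  set S := slL Y Lt E with hS
  set W : ℝ := (S.card : ℝ) with hW
  have hYs := hB.sh hY
  set B0 := (slo Y E).filter (fun s => s.2 ∈ Ex Y) with hB0
  set B1 := S.filter (fun s => u s.1 = none ∨ u s.1 = some j0 ∨ s.1 ∈ X0) with hB1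
  set B2 := (prs G (Y ∩ Lt) (fun v x => x ∈ (nb (Gss G EH Ys) v).filter
    (fun x => x ∈ X0 ∧ x ∉ UH))).image (fi t) with hB2
  set B3 := (prs G (Y ∩ Lt) (fun v y => ¬ InS Ys y ∧ y ∉ UH ∧ (bt G Sh Lt y : ℝ) ≤ δ1 * d ∧
    hM v y)).image (fi t) with hB3
  set B4 := (prs G (Y ∩ Lt) (fun v y => ¬ InS Ys y ∧ sp y = sp v)).image (fi t) with hB4
  set H := hbb δ1 G d Ys Sh Lt Y with hH
  set B5 := (prs G (Y ∩ Lt) (fun _ y => y ∈ H)).image (fi t) with hB5
  set P := prs G (Y ∩ Lt) (fun _ y => ¬ InS Ys y ∧ y ∉ UH ∧ (bt G Sh Lt y : ℝ) ≤ δ1 * d)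
    with hP
  set U := (slo Y E).filter (fun s => s.2 ∉ Ex Y ∧ Usl ρ G EH d Ys Sh UH X0 K0 μ t E F0
    (pmm δ1 G d Sh Lt) s) with hU
  have hHout : ∀ y ∈ H, ¬ InS Ys y := fun y hy => (mem_filter.1 hy).2.1
  -- the slots
  have hcov : S ⊆ U ∪ (B0 ∪ (B1 ∪ (B2 ∪ (B3 ∪ (B4 ∪ B5))))) := by
    intro s hs
    have hsS := (mem_filter.1 hs).1
    have hvL : s.1 ∈ Lt := (mem_filter.1 hs).2
    by_cases hs0 : s.2 ∈ Ex Y
    · exact mem_union_right _ (mem_union_left _ (mem_filter.2 ⟨hsS, hs0⟩))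
    by_cases hs1 : s ∈ B1
    · exact mem_union_right _ (mem_union_right _ (mem_union_left _ hs1))
    obtain ⟨v, α⟩ := s
    have hs2 := mem_filter.1 hsS
    have hv : v ∈ Y := (mem_product.1 hs2.1).1
    have hα : α ∈ E v := hs2.2
    simp only at hvL hs0
    have hvYL : v ∈ Y ∩ Lt := mem_inter.2 ⟨hv, hvL⟩
    have hx : ¬ (u v = none ∨ u v = some j0 ∨ v ∈ X0) := fun h => hs1 (mem_filter.2 ⟨hs, h⟩)
    push Not at hx
    obtain ⟨h1, h2, h3⟩ := hx
    obtain ⟨i, hi⟩ : ∃ i, u v = some i := Option.ne_none_iff_exists'.1 h1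
    have hij : i ≠ j0 := fun h => h2 (by rw [hi, h])
    have hvS : InS Sh v := ⟨Y, hY, hv⟩
    have hvY := inS_of_sh hB hvS
    by_cases hf : ∀ w, (Gex G Ys).Adj v w ∨ EH.Adj v w → t v w ≠ α
    · exact mem_union_left _ (mem_filter.2 ⟨hsS, hs0, usl_fake hB hθ hρ1 _ hvS h3 hα hf⟩)
    push Not at hf
    obtain ⟨w, hw, hwt⟩ := hf
    have hw' : (Gex G Ys).Adj v w := by
      rcases hw with hw | hw
      · exact hw
      · exact absurd hw (not_EH hB hvY h3 w)
    have hvw : G.Adj v w := hw'.1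
    by_cases hwS : InS Ys w
    · -- another spot
      by_cases hw0 : w ∈ X0
      · by_cases hwU : w ∈ UH
        · exact mem_union_left _ (mem_filter.2 ⟨hsS, hs0,
            usl_ssU hB hθ hρ1 _ hvS h3 hα hwS hwU hw' hwt⟩)
        · refine mem_union_right _ (mem_union_right _ (mem_union_right _ (mem_union_left _
            (mem_image.2 ⟨(v, w), mem_prs.2 ⟨hvYL, hvw, mem_filter.2 ⟨?_, hw0, hwU⟩⟩, ?_⟩))))
          · unfold nb
            exact mem_filter.2 ⟨mem_univ _, hvw, hvY, hwS, hw'.2, not_EH hB hvY h3 w⟩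
          · simp only [fi, hwt]
      · exact mem_union_left _ (mem_filter.2 ⟨hsS, hs0,
          usl_ss hB hθ hρ1 _ hvS h3 hα hwS hw0 hw' hwt⟩)
    · by_cases hpoor : (bt G Sh Lt w : ℝ) ≤ δ1 * d
      · by_cases hq : w ∈ UH ∨ ¬ hM v w
        · refine mem_union_left _ (mem_filter.2 ⟨hsS, hs0, ?_⟩)
          rw [← hwt]
          exact usl_poor hB hL hvS hvL h3 hi hwS hvw hpoor hq
        · push Not at hq
          refine mem_union_right _ (mem_union_right _ (mem_union_right _ (mem_union_right _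
            (mem_union_left _ (mem_image.2 ⟨(v, w), mem_prs.2 ⟨hvYL, hvw, hwS, hq.1, hpoor,
              hq.2⟩, ?_⟩)))))
          simp only [fi, hwt]
      · push Not at hpoor
        by_cases hdom : ((nb G w ∩ (Y ∩ Lt)).card : ℝ) ≤ 3 / 4 * (bt G Sh Lt w : ℝ)
        · by_cases hq : w ∈ UH ∨ sp w ≠ sp v
          · refine mem_union_left _ (mem_filter.2 ⟨hsS, hs0, ?_⟩)
            rw [← hwt]
            exact usl_rich hB hL _ hρ hY hv hvL h3 hi hij hwS hvw hpoor hdom hq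
          · push Not at hq
            refine mem_union_right _ (mem_union_right _ (mem_union_right _ (mem_union_right _
              (mem_union_right _ (mem_union_left _ (mem_image.2
                ⟨(v, w), mem_prs.2 ⟨hvYL, hvw, hwS, hq.2⟩, ?_⟩))))))
            simp only [fi, hwt]
        · push Not at hdom
          refine mem_union_right _ (mem_union_right _ (mem_union_right _ (mem_union_right _
            (mem_union_right _ (mem_union_right _ (mem_image.2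
              ⟨(v, w), mem_prs.2 ⟨hvYL, hvw, ?_⟩, ?_⟩))))))
          · exact mem_filter.2 ⟨mem_univ _, hwS, hpoor, hdom⟩
          · simp only [fi, hwt]
  have hcard : S.card ≤ U.card + (B0.card + (B1.card + (B2.card + (B3.card +
      (B4.card + B5.card))))) := by
    have e1 := (card_le_card hcov).trans (card_union_le _ _)
    have e6 := card_union_le B0 (B1 ∪ (B2 ∪ (B3 ∪ (B4 ∪ B5))))
    have e2 := card_union_le B1 (B2 ∪ (B3 ∪ (B4 ∪ B5)))
    have e3 := card_union_le B2 (B3 ∪ (B4 ∪ B5))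
    have e4 := card_union_le B3 (B4 ∪ B5)
    have e5 := card_union_le B4 B5
    omega
  -- the bad slots
  have hb0 : (B0.card : ℝ) ≤ (nd Y + 4) * (2 * δ * Y.card) := ex_real hB hY hδ0
  have hb1 : (B1.card : ℝ) ≤ ε * W := hG.spc
  have hb2 : (B2.card : ℝ) ≤ ε * W := by
    refine le_trans ?_ hG.gss
    have : B2.card ≤ ∑ v ∈ Y ∩ Lt, ((nb (Gss G EH Ys) v).filter
        (fun x => x ∈ X0 ∧ x ∉ UH)).card := by
      refine card_image_le.trans ?_
      rw [card_prs]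
      refine sum_le_sum fun v _ => card_le_card fun x hx => ?_
      have hx' : x ∈ nb G v ∧ x ∈ (nb (Gss G EH Ys) v).filter (fun x => x ∈ X0 ∧ x ∉ UH) := by
        simpa only [mem_filter] using hx
      exact hx'.2
    exact_mod_cast this
  have hb3 : (B3.card : ℝ) ≤ 3 / 4 * (P.card : ℝ) + ε * W := by
    have e1 : (B3.card : ℝ) ≤ ((∑ v ∈ Y ∩ Lt, ((nb G v).filter (fun y => ¬ InS Ys y ∧ y ∉ UH ∧
      (bt G Sh Lt y : ℝ) ≤ δ1 * d ∧ hM v y)).card : ℕ) : ℝ) := by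
      have : B3.card ≤ ∑ v ∈ Y ∩ Lt, ((nb G v).filter (fun y => ¬ InS Ys y ∧ y ∉ UH ∧
          (bt G Sh Lt y : ℝ) ≤ δ1 * d ∧ hM v y)).card := by
        refine card_image_le.trans ?_
        rw [card_prs]
        apply le_of_eq
        congr!
      exact_mod_cast this
    have e2 : (P.card : ℝ) = ((∑ v ∈ Y ∩ Lt, ((nb G v).filter (fun y => ¬ InS Ys y ∧ y ∉ UH ∧
      (bt G Sh Lt y : ℝ) ≤ δ1 * d)).card : ℕ) : ℝ) := by
      rw [hP, card_prs]
      congr!
    rw [e2]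
    exact e1.trans hG.hMl
  have hb4 : (B4.card : ℝ) ≤ ε * W := by
    refine le_trans ?_ hG.spl
    have : B4.card ≤ ∑ v ∈ Y ∩ Lt, ((nb G v).filter
        (fun y => ¬ InS Ys y ∧ sp y = sp v)).card := by
      refine card_image_le.trans ?_
      rw [card_prs]
      apply le_of_eq
      congr!
    exact_mod_cast this
  set D5 := prs G (Y ∩ Lt) (fun _ y => y ∈ H) with hD5
  have hb5 : (B5.card : ℝ) ≤ (D5.card : ℝ) := by
    have : B5.card ≤ D5.card := card_image_le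
    exact_mod_cast this
  have hPD : (P.card : ℝ) + D5.card ≤ W := by
    have hdisj : Disjoint P D5 := by
      rw [disjoint_left]
      intro p hp hp'
      have h1 := (mem_prs.1 hp).2.2.2.2
      have h2 := (mem_filter.1 (mem_prs.1 hp').2.2).2.2.1
      linarith
    have h1 : P.card + D5.card ≤ S.card := by
      rw [← card_union_of_disjoint hdisj]
      have hadj : ∀ p ∈ P ∪ D5, p.1 ∈ Y ∩ Lt ∧ (Gex G Ys).Adj p.1 p.2 := by
        intro p hp
        rcases mem_union.1 hp with hp | hp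
        · have := mem_prs.1 hp
          exact ⟨this.1, gex_of_out this.2.1 this.2.2.1⟩
        · have := mem_prs.1 hp
          exact ⟨this.1, gex_of_out this.2.1 (hHout _ this.2.2)⟩
      refine card_le_card_of_injOn (fi t) ?_ ?_
      · intro p hp
        have := hadj p (mem_coe.1 hp)
        exact mem_coe.2 (mem_filter.2 ⟨fi_mem hB hYs (mem_inter.1 this.1).1 this.2,
          (mem_inter.1 this.1).2⟩)
      · intro p hp q hq h
        exact fi_inj hB (hadj p (mem_coe.1 hp)).2 (hadj q (mem_coe.1 hq)).2 h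
    have : ((P.card + D5.card : ℕ) : ℝ) ≤ (S.card : ℝ) := by exact_mod_cast h1
    push_cast at this
    exact this
  have hYp' : (0 : ℝ) < Y.card := by exact_mod_cast hYp
  have hD5c : (D5.card : ℝ) ≤ (H.card : ℝ) * Y.card := by
    have h1 := card_prs_comm G (Y ∩ Lt) H
    have h2 : (Y ∩ Lt).card ≤ Y.card := card_le_card inter_subset_left
    have h3 : D5.card ≤ H.card * Y.card := h1.trans (Nat.mul_le_mul_left _ h2)
    exact_mod_cast h3
  have hHn : (H.card : ℝ) + 1 ≤ nd Y := by exact_mod_cast hn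
  have hcardR : W ≤ (U.card : ℝ) + (B0.card + (B1.card + (B2.card + (B3.card + (B4.card +
      B5.card))))) := by
    have : ((S.card : ℕ) : ℝ) ≤ ((U.card + (B0.card + (B1.card + (B2.card + (B3.card + (B4.card +
      B5.card))))) : ℕ) : ℝ) := by exact_mod_cast hcard
    push_cast at this
    exact this
  have hcnt := hG.cnt
  have hW0 : 0 ≤ W := Nat.cast_nonneg _
  have hH0 : (0 : ℝ) ≤ H.card := Nat.cast_nonneg _
  have hnd1 : (1 : ℝ) ≤ nd Y := by linarith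
  have hndW : (nd Y : ℝ) * Y.card ≤ W := by
    have : 0 ≤ c * W := mul_nonneg hc.le hW0
    have h2 : (1 - c) * W = W - c * W := by ring
    have h3 : (nd Y : ℝ) * Y.card ≤ (1 - c) * W := hcnt
    linarith
  have hlost : ((nd Y : ℝ) + 4) * (2 * δ * Y.card) ≤ 10 * ε * W := by
    have h1 : ((nd Y : ℝ) + 4) ≤ 5 * nd Y := by linarith
    calc ((nd Y : ℝ) + 4) * (2 * δ * Y.card) ≤ (5 * nd Y) * (2 * δ * Y.card) :=
          mul_le_mul_of_nonneg_right h1 (by positivity)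
      _ = 10 * δ * (nd Y * Y.card) := by ring
      _ ≤ 10 * δ * W := mul_le_mul_of_nonneg_left hndW (by positivity)
      _ ≤ 10 * ε * W := mul_le_mul_of_nonneg_right (by linarith) hW0
  have hεW : ε * W ≤ c / 400 * W := mul_le_mul_of_nonneg_right hε hW0
  have h10 : 10 * ε * W = 10 * (ε * W) := by ring
  have h3 : (nd Y : ℝ) * Y.card ≤ W - c * W := by
    have h2 : (1 - c) * W = W - c * W := by ring
    rw [← h2]; exact hcnt
  have hcW : 0 ≤ c * W := mul_nonneg hc.le hW0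
  have hgoal : ((nd Y : ℝ) - H.card) * Y.card = nd Y * Y.card - H.card * Y.card := by ring
  have hpos : 0 ≤ ((nd Y : ℝ) - H.card) * Y.card := mul_nonneg (by linarith) hYp'.le
  have hfin : 1 / 4 * (((nd Y : ℝ) - H.card) * Y.card) ≤ U.card := by
    rw [hgoal]
    linarith
  calc 1 / 5 * ((nd Y : ℝ) - H.card) * Y.card = 1 / 5 * (((nd Y : ℝ) - H.card) * Y.card) := by
        ring
    _ ≤ 1 / 4 * (((nd Y : ℝ) - H.card) * Y.card) := by linarith
    _ ≤ _ := hfin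

lemma two_UH (h : HPre G UH c0 EH tu) (v : V) :
    ((nb G v).filter (fun y => y ∈ UH)).card ≤ 2 := by
  by_contra hlt
  push Not at hlt
  have hne : ((nb G v).filter (fun y => y ∈ UH)).Nonempty := card_pos.mp (by omega)
  obtain ⟨w, hw⟩ := hne
  have hmem : ∀ x, x ∈ (nb G v).filter (fun y => y ∈ UH) ↔ G.Adj v x ∧ x ∈ UH := by
    intro x
    simp [nb]
  rw [hmem] at hw
  have hsub : (nb G v).filter (fun y => y ∈ UH) ⊆ insert w (nb EH w) := by
    intro x hx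
    rw [hmem] at hx
    rw [mem_insert]
    rcases h.far v w hw.2 x hx.2 hw.1 hx.1 with h1 | h1
    · exact Or.inl h1.symm
    · exact Or.inr (by simp [nb, h1])
  have h1 := card_le_card hsub
  have h2 := card_insert_le w (nb EH w)
  have h3 : (nb EH w).card ≤ 1 := h.mat w
  omega

lemma us_sma {ε : ℝ} (hB : Bas δ θ η G EH d Ys Sh UH X0 c0 tu cc t E F0 K0 μ nd Ex)
    (hL : Lab ε2 G EH d Ys Sh UH X0 Lt t E μ E1 vb sy u j0 sp hM)
    (hθ : θ ≤ 1 / 100) (hρ2 : ρ ≤ 1 / 2)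
    (hρ : ρ + ε2 ≤ δ1 / 4) (hε0 : 0 ≤ ε) (hε : ε ≤ 1 / 400)
    (hδ0 : 0 < δ) (hδ : δ ≤ ε) {Y : Finset V} (hY : Y ∈ Sh) (hYp : 0 < Y.card)
    (hn : (hbb δ1 G d Ys Sh Lt Y).card < nd Y)
    (hG : Sma ε G UH X0 Lt u j0 nd Y) :
    1 / 5 * ((nd Y : ℝ) - (hbb δ1 G d Ys Sh Lt Y).card) * Y.card ≤
      (((slo Y E).filter (fun s => s.2 ∉ Ex Y ∧ Usl ρ G EH d Ys Sh UH X0 K0 μ t E F0
      (pmm δ1 G d Sh Lt) s)).card : ℝ) := by
  have hYs := hB.sh hY
  set U := (slo Y E).filter (fun s => s.2 ∉ Ex Y ∧ Usl ρ G EH d Ys Sh UH X0 K0 μ t E F0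
    (pmm δ1 G d Sh Lt) s) with hU
  set B0 := (slo Y E).filter (fun s => s.2 ∈ Ex Y) with hB0
  set H := hbb δ1 G d Ys Sh Lt Y with hH
  set A := prs G (Y ∩ Lt) (fun _ y => y ∉ Y ∧ y ∈ UH) with hA
  set Y1 := (Y ∩ Lt).filter (fun v => u v = none ∨ u v = some j0 ∨ v ∈ X0) with hY1
  set A1 := prs G Y1 (fun _ y => y ∈ UH) with hA1
  set D5 := prs G (Y ∩ Lt) (fun _ y => y ∈ H) with hD5
  set A0 := A.filter (fun p => p.1 ∉ Y1 ∧ p.2 ∉ H) with hA0
  have hcov : A ⊆ A0 ∪ (A1 ∪ D5) := by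
    intro p hp
    have h1 := mem_prs.1 hp
    by_cases h2 : p.1 ∈ Y1
    · exact mem_union_right _ (mem_union_left _ (mem_prs.2 ⟨h2, h1.2.1, h1.2.2.2⟩))
    · by_cases h3 : p.2 ∈ H
      · exact mem_union_right _ (mem_union_right _ (mem_prs.2 ⟨h1.1, h1.2.1, h3⟩))
      · exact mem_union_left _ (mem_filter.2 ⟨hp, h2, h3⟩)
  have hcard : A.card ≤ A0.card + (A1.card + D5.card) := by
    have e1 := (card_le_card hcov).trans (card_union_le _ _)
    have e2 := card_union_le A1 D5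
    omega
  have hex : ∀ v y : V, v ∈ Y → y ∉ Y → G.Adj v y → (Gex G Ys).Adj v y := by
    intro v y hv hy h
    refine ⟨h, fun ⟨Y', hY', h1, h2⟩ => ?_⟩
    by_cases he : Y' = Y
    · exact hy (he ▸ h2)
    · exact disjoint_left.1 (hB.dis Y' hY' Y hYs he) h1 hv
  have hA0U : A0.card ≤ (U ∪ B0).card := by
    refine card_le_card_of_injOn (fi t) ?_ ?_
    · rintro ⟨v, y⟩ hp
      have h1 := mem_filter.1 (mem_coe.1 hp)
      obtain ⟨hvYL, hvy, hyY, hyU⟩ := mem_prs.1 h1.1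
      simp only at hvYL hvy hyY hyU
      obtain ⟨hv, hvL⟩ := mem_inter.1 hvYL
      have hx : ¬ (u v = none ∨ u v = some j0 ∨ v ∈ X0) := fun h =>
        h1.2.1 (mem_filter.2 ⟨hvYL, h⟩)
      push Not at hx
      obtain ⟨h4, h5, h6⟩ := hx
      obtain ⟨i, hi⟩ : ∃ i, u v = some i := Option.ne_none_iff_exists'.1 h4
      have hij : i ≠ j0 := fun h => h5 (by rw [hi, h])
      have hvS : InS Sh v := ⟨Y, hY, hv⟩
      have hvY := inS_of_sh hB hvS
      have hs : fi t (v, y) ∈ slo Y E := fi_mem hB hYs hv (hex v y hv hyY hvy)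
      by_cases hs0 : (fi t (v, y)).2 ∈ Ex Y
      · exact mem_coe.2 (mem_union_right _ (mem_filter.2 ⟨hs, hs0⟩))
      refine mem_coe.2 (mem_union_left _ (mem_filter.2 ⟨hs, hs0, ?_⟩))
      change Usl ρ G EH d Ys Sh UH X0 K0 μ t E F0 (pmm δ1 G d Sh Lt) (v, t v y)
      by_cases hyS : InS Ys y
      · exact usl_ssU hB hθ hρ2 _ hvS h6 (hB.cor.Et v y hvY (Or.inl (hex v y hv hyY hvy))) hyS
          hyU (hex v y hv hyY hvy) rfl
      by_cases hpoor : (bt G Sh Lt y : ℝ) ≤ δ1 * d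
      · exact usl_poor hB hL hvS hvL h6 hi hyS hvy hpoor (Or.inl hyU)
      · push Not at hpoor
        by_cases hdom : ((nb G y ∩ (Y ∩ Lt)).card : ℝ) ≤ 3 / 4 * (bt G Sh Lt y : ℝ)
        · exact usl_rich hB hL _ hρ hY hv hvL h6 hi hij hyS hvy hpoor hdom (Or.inl hyU)
        · push Not at hdom
          exact absurd (mem_filter.2 ⟨mem_univ _, hyS, hpoor, hdom⟩) h1.2.2
    · intro p hp q hq h
      have h1 := mem_prs.1 (mem_filter.1 (mem_coe.1 hp)).1
      have h2 := mem_prs.1 (mem_filter.1 (mem_coe.1 hq)).1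
      exact fi_inj hB (hex _ _ (mem_inter.1 h1.1).1 h1.2.2.1 h1.2.1)
        (hex _ _ (mem_inter.1 h2.1).1 h2.2.2.1 h2.2.1) h
  have hUB := card_union_le U B0
  have hA1c : A1.card ≤ Y1.card * 2 := by
    rw [hA1, card_prs]
    have h2 : ∀ v ∈ Y1, ((nb G v).filter (fun y => y ∈ UH)).card ≤ 2 :=
      fun v _ => two_UH hB.pre v
    calc _ = ∑ v ∈ Y1, ((nb G v).filter (fun y => y ∈ UH)).card := by congr!
      _ ≤ Y1.card • 2 := sum_le_card_nsmul _ _ _ h2
      _ = Y1.card * 2 := by rw [smul_eq_mul]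
  have hYp' : (0 : ℝ) < Y.card := by exact_mod_cast hYp
  have hD5c : (D5.card : ℝ) ≤ (H.card : ℝ) * Y.card := by
    have h1 := card_prs_comm G (Y ∩ Lt) H
    have h2 : (Y ∩ Lt).card ≤ Y.card := card_le_card inter_subset_left
    have h3 : D5.card ≤ H.card * Y.card := h1.trans (Nat.mul_le_mul_left _ h2)
    exact_mod_cast h3
  have hHn : (H.card : ℝ) + 1 ≤ nd Y := by exact_mod_cast hn
  have hAc : (nd Y : ℝ) * (1 - ε) * Y.card ≤ (A.card : ℝ) := by
    refine hG.uh.trans (le_of_eq ?_)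
    rw [hA, card_prs]
    congr!
  have hY1c : (Y1.card : ℝ) ≤ ε * Y.card := hG.spc
  have hb0 : (B0.card : ℝ) ≤ (nd Y + 4) * (2 * δ * Y.card) := ex_real hB hY hδ0
  have h1 : (A.card : ℝ) ≤ (U.card : ℝ) + (B0.card + 2 * Y1.card + D5.card) := by
    have : A.card ≤ U.card + (B0.card + 2 * Y1.card + D5.card) := by omega
    exact_mod_cast this
  have h3 : (nd Y : ℝ) ≤ 2 := by exact_mod_cast hG.two
  have hεY : 0 ≤ ε * Y.card := by positivity
  have h4 : (nd Y : ℝ) * (ε * Y.card) ≤ 2 * (ε * Y.card) :=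
    mul_le_mul_of_nonneg_right h3 hεY
  have h5 : ε * Y.card ≤ 1 / 400 * Y.card := mul_le_mul_of_nonneg_right hε hYp'.le
  have h6 : ((nd Y : ℝ) + 4) * (2 * δ * Y.card) ≤ 12 * (ε * Y.card) := by
    calc ((nd Y : ℝ) + 4) * (2 * δ * Y.card) ≤ 6 * (2 * δ * Y.card) :=
          mul_le_mul_of_nonneg_right (by linarith) (by positivity)
      _ = 12 * (δ * Y.card) := by ring
      _ ≤ 12 * (ε * Y.card) := by
          have := mul_le_mul_of_nonneg_right hδ hYp'.le
          linarith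
  have h7 : (nd Y : ℝ) * (1 - ε) * Y.card = nd Y * Y.card - nd Y * (ε * Y.card) := by ring
  rw [h7] at hAc
  have hgoal : ((nd Y : ℝ) - H.card) * Y.card = nd Y * Y.card - H.card * Y.card := by ring
  have h8 : 1 * (Y.card : ℝ) ≤ ((nd Y : ℝ) - H.card) * Y.card :=
    mul_le_mul_of_nonneg_right (by linarith) hYp'.le
  calc 1 / 5 * ((nd Y : ℝ) - H.card) * Y.card = 1 / 5 * (((nd Y : ℝ) - H.card) * Y.card) := by
        ring
    _ ≤ U.card := by
        rw [hgoal] at h8 ⊢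
        linarith

end

/-- GEO -/
theorem stmt_GEO : Stmt_GEO.{u} := by
  refine ⟨1 / 5, by norm_num, fun δ1 hδ1 => ⟨min (δ1 / 16) (1 / 2), δ1 / 16, by positivity,
    by positivity, fun c hc hc1 => ⟨c / 400, ⌈4 / δ1⌉₊, by positivity, ?_⟩⟩⟩
  intro δ θ η hδ hδε hθ hθ1 hη V _ k ι κ G EH d Ys Sh UH X0 Lt c0 tu cc t E F0 K0 μ nd Ex E1 vb
    sy u j0 sp hM hd hB hL hBS
  set ρ : ℝ := min (δ1 / 16) (1 / 2) with hρ
  have hρ1 : ρ ≤ δ1 / 16 := min_le_left _ _
  have hρ2 : ρ ≤ 1 / 2 := min_le_right _ _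
  have hd1 : 4 ≤ δ1 * d := by
    have h1 : 4 / δ1 ≤ (d : ℝ) := (Nat.le_ceil _).trans (by exact_mod_cast hd)
    rw [div_le_iff₀ hδ1] at h1
    linarith
  have hdpos : 0 < d := by
    rcases Nat.eq_zero_or_pos d with h | h
    · rw [h] at hd1; norm_num at hd1
    · exact h
  have hYpos : ∀ Y ∈ Sh, 0 < Y.card := by
    intro Y hY
    have := hB.low Y hY
    omega
  have hsum : ∀ Y : Finset V, nd Y = (nd Y - min (nd Y) (hbb δ1 G d Ys Sh Lt Y).card) +
      min (nd Y) (hbb δ1 G d Ys Sh Lt Y).card := by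
    intro Y
    have := min_le_left (nd Y) (hbb δ1 G d Ys Sh Lt Y).card
    omega
  refine ⟨fun Y => nd Y - min (nd Y) (hbb δ1 G d Ys Sh Lt Y).card,
    fun Y => min (nd Y) (hbb δ1 G d Ys Sh Lt Y).card, pmm δ1 G d Sh Lt,
    hbb δ1 G d Ys Sh Lt, ?_, fun Y _ => hsum Y⟩
  refine
    { K0c := hB.K0c
      deg := hB.deg
      EG := hB.pre.EG
      upp := hB.upp
      low := hB.low
      dis := hB.dis
      sh := hB.sh
      UX := hB.UX
      cor := hB.cor
      Ec := hB.Ec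
      Es := hB.Es
      ld := hB.ld
      mis := hB.mis
      pm := ?_
      ndd := ?_
      Exc := ?_
      us := ?_
      Hc := ?_
      Hd := ?_
      Hy := ?_ }
  · intro y
    by_cases hb : (bt G Sh Lt y : ℝ) ≤ δ1 * d
    · refine le_trans ?_ hb
      have : (univ.filter (fun v => pmm δ1 G d Sh Lt y v)).card ≤ bt G Sh Lt y := by
        refine card_le_card fun v hv => ?_
        obtain ⟨_, _, h2, h3⟩ := mem_filter.1 hv
        refine mem_filter.2 ⟨?_, h3⟩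
        unfold nb
        exact mem_filter.2 ⟨mem_univ _, h2⟩
      exact_mod_cast this
    · have : univ.filter (fun v => pmm δ1 G d Sh Lt y v) = ∅ := by
        refine filter_eq_empty_iff.2 fun v _ h => hb h.1
      rw [this]
      simp only [card_empty, Nat.cast_zero]
      linarith
  · intro Y hY
    have h1 := hB.ndd Y hY
    have h2 : ((nd Y : ℕ) : ℝ) = ((nd Y - min (nd Y) (hbb δ1 G d Ys Sh Lt Y).card : ℕ) : ℝ) +
        ((min (nd Y) (hbb δ1 G d Ys Sh Lt Y).card : ℕ) : ℝ) := by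
      exact_mod_cast hsum Y
    rw [h2] at h1
    exact h1
  · intro Y hY
    have h1 := hB.Exc Y hY
    have h2 := hsum Y
    omega
  · intro Y hY
    rcases Nat.lt_or_ge (hbb δ1 G d Ys Sh Lt Y).card (nd Y) with hn | hn
    · have h1 : ((nd Y - min (nd Y) (hbb δ1 G d Ys Sh Lt Y).card : ℕ) : ℝ) =
          (nd Y : ℝ) - (hbb δ1 G d Ys Sh Lt Y).card := by
        rw [min_eq_right hn.le, Nat.cast_sub hn.le]
      rw [h1]
      rcases hBS Y hY (by omega) with h | h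
      · exact us_big hB hL hθ1 hρ2 (by linarith) hc le_rfl hδ hδε hY (hYpos Y hY) hn h
      · exact us_sma hB hL hθ1 hρ2 (by linarith) (by positivity) (by linarith) hδ hδε hY
          (hYpos Y hY) hn h
    · have h1 : nd Y - min (nd Y) (hbb δ1 G d Ys Sh Lt Y).card = 0 := by
        rw [min_eq_left hn]; omega
      rw [h1]
      simp
  · intro Y _
    exact min_le_right _ _
  · intro Y hY Y' hY' hne
    rw [disjoint_left]
    intro y h1 h2
    obtain ⟨_, _, h3, h4⟩ := mem_filter.1 h1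
    obtain ⟨_, _, _, h5⟩ := mem_filter.1 h2
    have h6 : (nb G y ∩ (Y ∩ Lt)).card + (nb G y ∩ (Y' ∩ Lt)).card ≤ bt G Sh Lt y := by
      have hdis : Disjoint (nb G y ∩ (Y ∩ Lt)) (nb G y ∩ (Y' ∩ Lt)) :=
        Disjoint.mono (inter_subset_right.trans inter_subset_left)
          (inter_subset_right.trans inter_subset_left)
          (hB.dis Y (hB.sh hY) Y' (hB.sh hY') hne)
      rw [← card_union_of_disjoint hdis]
      refine card_le_card fun v hv => ?_
      rcases mem_union.1 hv with h | h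
      · exact mem_filter.2 ⟨(mem_inter.1 h).1, ⟨Y, hY, (mem_inter.1 (mem_inter.1 h).2).1⟩,
          (mem_inter.1 (mem_inter.1 h).2).2⟩
      · exact mem_filter.2 ⟨(mem_inter.1 h).1, ⟨Y', hY', (mem_inter.1 (mem_inter.1 h).2).1⟩,
          (mem_inter.1 (mem_inter.1 h).2).2⟩
    have h7 : ((nb G y ∩ (Y ∩ Lt)).card : ℝ) + (nb G y ∩ (Y' ∩ Lt)).card ≤ bt G Sh Lt y := by
      exact_mod_cast h6
    linarith
  · intro Y hY y hy
    obtain ⟨_, h1, h2, h3⟩ := mem_filter.1 hy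
    refine ⟨h1, fun v h => ?_, hbb_good hB hL (by linarith) hd1 hY hy⟩
    have := h.1
    linarith

end Pool.Agent.Work.MP_db9399_sv.helper10
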